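import Pool.Agent.N483.KM.StmO

/-!
Project KM (helper483), leaf ORE: from real valued convex functions to functions with values in
`[0, ∞]` (helper682).
-/

set_option autoImplicit false

namespace Pool.Agent.N682.KM

open MeasureTheory Set Filter Topology
open scoped ENNReal InnerProductSpace
open Pool.Agent.R754.KG (E un sl Rv)
open Pool.Agent.N483.KM (SL XC S_ORE)

theorem ore_cont {V : ℝ → ℝ} (h : ConvexOn ℝ univ V) : Continuous V := by
  have := h.continuousOn isOpen_univ
  exact continuousOn_univ.1 this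

theorem ore_xc {V : ℝ → ℝ} (h : ConvexOn ℝ univ V) (M : ℝ) :
    XC fun t => ENNReal.ofReal (max (V t) (-M) + M) := by
  have hc := ore_cont h
  refine ⟨?_, ?_⟩
  · exact (ENNReal.continuous_ofReal.comp
      ((hc.max continuous_const).add continuous_const)).lowerSemicontinuous
  · intro x y t h0 h1
    have h2 : V ((1 - t) * x + t * y) ≤ (1 - t) * V x + t * V y := by
      have := h.2 (mem_univ x) (mem_univ y) (by linarith : 0 ≤ 1 - t) h0.le (by ring)
      simpa [smul_eq_mul] using this
    have h3 : ∀ s, 0 ≤ max (V s) (-M) + M := fun s => by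
      have := le_max_right (V s) (-M)
      linarith
    rw [← ENNReal.ofReal_mul (by linarith), ← ENNReal.ofReal_mul h0.le,
      ← ENNReal.ofReal_add (mul_nonneg (by linarith) (h3 x)) (mul_nonneg h0.le (h3 y))]
    refine ENNReal.ofReal_le_ofReal ?_
    have h4 : max (V ((1 - t) * x + t * y)) (-M) ≤
        (1 - t) * max (V x) (-M) + t * max (V y) (-M) := by
      apply max_le
      · have h5 := mul_le_mul_of_nonneg_left (le_max_left (V x) (-M))
          (by linarith : (0 : ℝ) ≤ 1 - t)
        have h6 := mul_le_mul_of_nonneg_left (le_max_left (V y) (-M)) h0.le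
        linarith
      · have h5 := mul_le_mul_of_nonneg_left (le_max_right (V x) (-M))
          (by linarith : (0 : ℝ) ≤ 1 - t)
        have h6 := mul_le_mul_of_nonneg_left (le_max_right (V y) (-M)) h0.le
        linarith
    linarith

theorem t_ORE : S_ORE := by
  intro r n V e hV hb hne
  obtain ⟨R, hR⟩ := hb.exists_norm_le
  have h1 : ∀ j i, ∃ C, ∀ t ∈ Icc (-R) R, ‖V j i t‖ ≤ C := fun j i =>
    isCompact_Icc.exists_bound_of_continuousOn (ore_cont (hV j i)).continuousOn
  choose C hC using h1
  set M : ℝ := ∑ j, ∑ i, |C j i| with hM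
  have hCM : ∀ j i, C j i ≤ M := by
    intro j i
    have h2 : |C j i| ≤ ∑ i, |C j i| :=
      Finset.single_le_sum (f := fun i => |C j i|) (fun _ _ => abs_nonneg _) (Finset.mem_univ i)
    have h3 : ∑ i, |C j i| ≤ M :=
      Finset.single_le_sum (f := fun j => ∑ i, |C j i|)
        (fun _ _ => Finset.sum_nonneg fun _ _ => abs_nonneg _) (Finset.mem_univ j)
    exact (le_abs_self _).trans (h2.trans h3)
  have hKM : ∀ x ∈ SL V e, ∀ j i, -M ≤ V j i (x i) := by
    intro x hx j i
    have h2 := hR x hx
    have h3 := (PiLp.norm_apply_le x i).trans h2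
    rw [Real.norm_eq_abs] at h3
    have h4 := hC j i (x i) (abs_le.1 h3)
    rw [Real.norm_eq_abs] at h4
    have h5 := (abs_le.1 h4).1
    have h6 := hCM j i
    linarith
  have hnn : ∀ j i t, 0 ≤ max (V j i t) (-M) + M := fun j i t => by
    have := le_max_right (V j i t) (-M)
    linarith
  refine ⟨fun j i t => ENNReal.ofReal (max (V j i t) (-M) + M),
    fun j => ENNReal.ofReal (e j + n * M), fun j i => ore_xc (hV j i) M, ?_⟩
  obtain ⟨x1, hx1⟩ := hne
  have hfn : ∀ j, 0 ≤ e j + n * M := by
    intro j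
    have h2 : ∑ i, V j i (x1 i) ≤ e j := hx1 j
    have h3 : ∑ _i : Fin n, (-M) ≤ ∑ i, V j i (x1 i) :=
      Finset.sum_le_sum fun i _ => hKM x1 hx1 j i
    rw [Finset.sum_const, Finset.card_univ, Fintype.card_fin, nsmul_eq_mul] at h3
    linarith
  have hsum : ∀ (x : E n) (j : Fin r), (∑ i, ENNReal.ofReal (max (V j i (x i)) (-M) + M) ≤
      ENNReal.ofReal (e j + n * M)) ↔ ∑ i, max (V j i (x i)) (-M) ≤ e j := by
    intro x j
    rw [← ENNReal.ofReal_sum_of_nonneg fun i _ => hnn j i (x i),
      ENNReal.ofReal_le_ofReal_iff (hfn j), Finset.sum_add_distrib, Finset.sum_const,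
      Finset.card_univ, Fintype.card_fin, nsmul_eq_mul]
    constructor
    · intro h; linarith
    · intro h; linarith
  ext x
  constructor
  · intro hx j
    rw [hsum x j]
    have h2 : ∑ i, max (V j i (x i)) (-M) = ∑ i, V j i (x i) :=
      Finset.sum_congr rfl fun i _ => max_eq_left (hKM x hx j i)
    rw [h2]
    exact hx j
  · intro hx j
    have h2 := (hsum x j).1 (hx j)
    exact (Finset.sum_le_sum fun i _ => le_max_left (V j i (x i)) (-M)).trans h2

end Pool.Agent.N682.KM
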